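import Pool.Agent.Lib.Skein.Cla

set_option autoImplicit false

/-!
# Trivial links in the (4,∞) skein module

Framed unoriented links in `S³` are closed words of elementary tangles modulo the moves of framed
isotopy (`Lib/Skein/Defs.lean`: Morse diagrams with blackboard framing, see Kauffman, Freyd-Yetter,
Turaev); `Indep R a b₀ b₁ b₂ b₃ b_∞` says that the classes of the trivial links `T₀, T₁, …` are
linearly independent in the (4,∞) skein module over `R`.

(1) Necessary conditions over every ring. (2) Sufficient conditions over every ring. (3) The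
complete answer for all rings in which `r³ = r` for all `r` (`𝔽₂`, `𝔽₃`, Boolean rings, products).
-/

noncomputable section

namespace Pool.Agent.Results.MP_115300_gt.CubicRings

open Pool.Agent.Lib.Skein

universe u

/-- **Theorem.** See the header. -/
theorem result :
    (∀ (R : Type u) [CommRing R] (a b0 b1 b2 b3 binf : R), IsUnit a → IsUnit b0 → IsUnit b3 →
      Indep R a b0 b1 b2 b3 binf →
      binf = 0 ∧ a ^ 3 * b0 + a ^ 2 * b1 + a * b2 + b3 = 0 ∧ b0 * b1 = b2 * b3 ∧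
        b0 ^ 2 + a ^ 2 * b0 * b2 = a ^ 2 * b3 ^ 2 + b1 * b3) ∧
    (∀ (R : Type u) [CommRing R] (a b0 b1 b2 b3 e : R), IsUnit b0 → IsUnit b3 → a ^ 4 = 1 →
      e * (b0 + a ^ 2 * b2) = 0 → e * (b1 + a ^ 2 * b3) = 0 →
      (1 - e) * (b0 + a * b3) = 0 → (1 - e) * (b2 + a * b1) = 0 →
      (1 - e) * (b1 ^ 3 - b1 * b3 ^ 2) = 0 →
      Indep R a b0 b1 b2 b3 0) ∧
    (∀ (R : Type u) [CommRing R], (∀ r : R, r ^ 3 = r) →
      ∀ a b0 b1 b2 b3 binf : R, IsUnit a → IsUnit b0 → IsUnit b3 →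
        (Indep R a b0 b1 b2 b3 binf ↔
          binf = 0 ∧ a ^ 3 * b0 + a ^ 2 * b1 + a * b2 + b3 = 0 ∧ b0 * b1 = b2 * b3)) := by
  refine ⟨?_, ?_, ?_⟩
  · intro R _ a b0 b1 b2 b3 binf ha _ _ h
    exact nec a b0 b1 b2 b3 binf ha h
  · intro R _ a b0 b1 b2 b3 e _ hb3 ha h1 h2 h3 h4 h5
    obtain ⟨c3, hc3⟩ := hb3.exists_right_inv
    exact glue a b0 b1 b2 b3 c3 e ha hc3 h1 h2 h3 h4 h5
  · intro R _ hR a b0 b1 b2 b3 binf ha hb0 hb3
    exact cla hR a b0 b1 b2 b3 binf ha hb0 hb3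

end Pool.Agent.Results.MP_115300_gt.CubicRings
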