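import Pool.Agent.Lib.Skein3.Final

/-!
# MP_115300_gt : the (4,∞) skein module when `b₁ = 0` or `b₂ = 0`, over every commutative ring

The definitions used in the statement are in `Pool/Agent/Lib/Skein/Defs.lean`: framed unoriented
links in `S³` are closed words of cups, caps and crossings (link diagrams in Morse position with
blackboard framing) modulo the moves of `Move`, and `Indep R a b₀ b₁ b₂ b₃ b_∞` says that the
classes of the trivial links `T₀, T₁, T₂, …` in the (4,∞) skein module over `R` are linearly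
independent over `R`.
-/

set_option autoImplicit false

namespace Pool.Agent.Results.MP_115300_gt.ThreeMoveSlice

/-- Let `a, b₀, b₃` be units of a commutative ring `R` and let `b₁ = 0` or `b₂ = 0`. The trivial
links are linearly independent in the (4,∞) skein module iff `b₁ = b₂ = b_∞ = 0`, `b₃ = -a³ b₀`
and `a⁸ = 1`. -/
theorem result {R : Type*} [CommRing R] (a b0 b1 b2 b3 binf : R) (ha : IsUnit a)
    (hb0 : IsUnit b0) (hb3 : IsUnit b3) (hb : b1 = 0 ∨ b2 = 0) :
    Pool.Agent.Lib.Skein.Indep R a b0 b1 b2 b3 binf ↔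
      b1 = 0 ∧ b2 = 0 ∧ binf = 0 ∧ b3 = -(a ^ 3 * b0) ∧ a ^ 8 = 1 :=
  Pool.Agent.Lib.Skein3.slice a b0 b1 b2 b3 binf ha hb0 hb3 hb

end Pool.Agent.Results.MP_115300_gt.ThreeMoveSlice
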